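import Mathlib
import Pool.Agent.Helper2.EG.Stmts

/-!
Module C0 of the crew project on MP_861132_nt: the residue of `q` modulo `u`.
-/

set_option autoImplicit false

namespace Pool.Agent.Helper2.EG

theorem st_C0 : ST_C0 := by
  intro u n hu h4 hn hs
  obtain ⟨s, hs⟩ := hs
  have : Fact u.Prime := ⟨hu⟩
  have hu2 : u ≠ 2 := by rintro rfl; omega
  have hN : (n : ZMod u) ≠ 0 := by
    intro h
    exact hn ((ZMod.natCast_eq_zero_iff n u).mp h)
  have h2 : (2 : ZMod u) ≠ 0 := by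
    intro h
    have h' : ((2 : ℕ) : ZMod u) = 0 := by exact_mod_cast h
    have h3 : u ∣ 2 := (ZMod.natCast_eq_zero_iff 2 u).mp h'
    exact hu2 ((Nat.prime_dvd_prime_iff_eq hu Nat.prime_two).mp h3)
  have hS : (s : ZMod u) ^ 2 = 4 * (n : ZMod u) ^ 3 + 1 := by
    have h := (ZMod.natCast_eq_natCast_iff (s ^ 2) (4 * n ^ 3 + 1) u).mpr hs
    push_cast at h
    exact h
  obtain ⟨i, hi⟩ : IsSquare (-1 : ZMod u) :=
    ZMod.exists_sq_eq_neg_one_iff.mpr (by omega)
  obtain ⟨Q, hQdef⟩ : ∃ Q : ZMod u, Q = ((s : ZMod u) - 1) / (2 * (n : ZMod u)) := ⟨_, rfl⟩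
  have hQ1 : 2 * (n : ZMod u) * Q = (s : ZMod u) - 1 := by
    rw [hQdef]
    field_simp
  have hQ : (n : ZMod u) * Q ^ 2 + Q - (n : ZMod u) ^ 2 = 0 := by
    have h4N : (4 * (n : ZMod u)) ≠ 0 := by
      have : (4 : ZMod u) = 2 * 2 := by norm_num
      rw [this]
      exact mul_ne_zero (mul_ne_zero h2 h2) hN
    apply (mul_left_cancel₀ h4N)
    have hs' : (s : ZMod u) = 2 * (n : ZMod u) * Q + 1 := by rw [hQ1]; ring
    rw [hs'] at hS
    linear_combination hS
  have hQ0 : Q ≠ 0 := by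
    intro h
    rw [h] at hQ
    apply hN
    have : (n : ZMod u) ^ 2 = 0 := by linear_combination -hQ
    exact pow_eq_zero_iff (two_ne_zero) |>.mp this
  have hi0 : i ≠ 0 := by
    intro h
    rw [h, mul_zero] at hi
    exact one_ne_zero (neg_eq_zero.mp hi)
  refine ⟨(-Q ^ 2).val, (i * Q).val, ?_, ?_, ?_, ?_⟩
  · rw [Nat.coprime_comm, Nat.Prime.coprime_iff_not_dvd hu]
    intro h
    have h' := (ZMod.natCast_eq_zero_iff _ u).mpr h
    rw [ZMod.natCast_zmod_val] at h'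
    exact hQ0 (pow_eq_zero_iff (two_ne_zero) |>.mp (neg_eq_zero.mp h'))
  · intro h
    have h' := (ZMod.natCast_eq_zero_iff _ u).mpr h
    rw [ZMod.natCast_zmod_val] at h'
    exact mul_ne_zero hi0 hQ0 h'
  · apply (ZMod.natCast_eq_natCast_iff _ _ u).mp
    push_cast
    rw [ZMod.natCast_zmod_val, ZMod.natCast_zmod_val]
    have : i ^ 2 = -1 := by rw [hi]; ring
    linear_combination -(Q ^ 2) * this
  · intro q hq
    have hq' : (q : ZMod u) = -Q ^ 2 := by
      have h := (ZMod.natCast_eq_natCast_iff q _ u).mpr hq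
      rw [ZMod.natCast_zmod_val] at h
      exact h
    apply (ZMod.natCast_eq_zero_iff _ u).mp
    push_cast
    rw [hq']
    have h1 : (n : ZMod u) * ((n : ZMod u) + -Q ^ 2) = Q := by linear_combination -hQ
    rw [h1]
    ring

end Pool.Agent.Helper2.EG
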